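import Pool.Agent.W495.TC.Stms

/-!
# Part TC-SINGLE: one orbit
-/

set_option autoImplicit false
set_option linter.all false

namespace Pool.Agent.W975.TC

open Pool.Agent.W547.LD Pool.Agent.W495.TA Pool.Agent.W495.TC

variable {G X : Type} [Group G] [Fintype G] [Fintype X] [MulAction G X] {c : G}

/-- the common elements of the subgroups of index two which do not contain `c` -/
def InM (c m : G) : Prop := ∀ N : Subgroup G, Comb.Imag c N → m ∈ N

theorem nf_smul (D : Subgroup G) (ε : X → ℤ) (x : X) (h g : G) :
    nf D ε (h • x) g = nf D ε x (g * h) := by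
  unfold nf
  refine Finset.sum_congr rfl fun d _ => ?_
  rw [mul_smul]

theorem cc (hc : ∀ g, c * g = g * c) (g : G) (x : X) : g • c • x = c • g • x := by
  rw [smul_smul, smul_smul, hc]

theorem nf_c (D : Subgroup G) (hc : ∀ g, c * g = g * c) {ε : X → ℤ} (hε : IsSign c ε) (x : X)
    (g : G) : nf D ε (c • x) g = -nf D ε x g := by
  unfold nf
  rw [← Finset.sum_neg_distrib]
  refine Finset.sum_congr rfl fun d _ => ?_
  rw [cc hc g x, cc hc d, hε.odd]
  split_ifs <;> simp

theorem InM.conj (hc : ∀ g, c * g = g * c) {m : G} (hm : InM c m) (g : G) :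
    InM c (g * m * g⁻¹) := by
  intro N hN
  rw [hN.mul_mem_iff hc, hN.mul_mem_iff hc, N.inv_mem_iff]
  have := hm N hN
  tauto

theorem InM.mul {m m' : G} (hm : InM c m) (hm' : InM c m') : InM c (m * m') :=
  fun N hN => N.mul_mem (hm N hN) (hm' N hN)

theorem InM.inv {m : G} (hm : InM c m) : InM c m⁻¹ := fun N hN => N.inv_mem (hm N hN)

theorem InM.one : InM c (1 : G) := fun N _ => N.one_mem

theorem InM.sq (hc : ∀ g, c * g = g * c) (g : G) : InM c (g * g) := by
  intro N hN
  rw [hN.mul_mem_iff hc]

theorem QQ_inv {m : G} (hm : InM c m) {F : G → ℚ} (hF : F ∈ Comb.QQ c) (g : G) :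
    F (g * m) = F g := by
  refine Submodule.span_induction (p := fun F _ => F (g * m) = F g) ?_ ?_ ?_ ?_ hF
  · rintro _ ⟨N, hN, rfl⟩
    have h : g * m ∈ N ↔ g ∈ N := N.mul_mem_cancel_right (hm N hN)
    by_cases hg : g ∈ N
    · exact (if_pos (h.2 hg)).trans (if_pos hg).symm
    · exact (if_neg fun h' => hg (h.1 h')).trans (if_neg hg).symm
  · rfl
  · intro x y _ _ hx hy
    rw [Pi.add_apply, Pi.add_apply, hx, hy]
  · intro r x _ hx
    rw [Pi.smul_apply, Pi.smul_apply, hx]

/-- Step 1: the function `a` is invariant under `M`. -/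
theorem step1 (hst : S_struct) (hS : Setting G X c) (D : Subgroup G) (ε : X → ℤ)
    (hε : IsSign c ε) (hcard : Fintype.card X ≤ 6) (a : X → ℤ) (ha : ∀ x, a (c • x) = -a x)
    (hnf : ∀ x y, nf D ε x = nf D ε y → a x = a y)
    (hQ : ∑ x, (a x : ℚ) • (fun g => (nf D ε x g : ℚ)) ∈ Comb.QQ c) {m : G} (hm : InM c m) (x : X) :
    a (m • x) = a x := by
  set b : X → ℤ := fun y => a (m⁻¹ • y) - a y with hb
  have hbo : ∀ y, b (c • y) = -b y := by
    intro y
    simp only [hb]
    rw [cc hS.comm, ha, ha]
    ring
  have hbn : ∀ y z, nf D ε y = nf D ε z → b y = b z := by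
    intro y z h
    have h1 : nf D ε (m⁻¹ • y) = nf D ε (m⁻¹ • z) := by
      funext g
      rw [nf_smul, nf_smul, h]
    simp only [hb]
    rw [hnf _ _ h1, hnf _ _ h]
  have hb0 : ∀ g, ∑ y, b y * nf D ε y g = 0 := by
    intro g
    have h1 := QQ_inv hm hQ g
    simp only [Finset.sum_apply, Pi.smul_apply, smul_eq_mul] at h1
    have h2 : ∑ y, (a y : ℚ) * (nf D ε y (g * m) : ℚ) = ∑ y, (a (m⁻¹ • y) : ℚ) * (nf D ε y g : ℚ) := by
      refine Fintype.sum_equiv (MulAction.toPerm m) _ _ fun y => ?_
      rw [MulAction.toPerm_apply, inv_smul_smul, nf_smul]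
    rw [h2] at h1
    have h3 : (∑ y, ((b y : ℤ) : ℚ) * ((nf D ε y g : ℤ) : ℚ)) = 0 := by
      simp only [hb, Int.cast_sub, sub_mul, Finset.sum_sub_distrib]
      rw [h1, sub_self]
    have h4 : ((∑ y, b y * nf D ε y g : ℤ) : ℚ) = 0 := by
      push_cast
      exact h3
    exact_mod_cast h4
  rcases hst G X c hS D ε hε (by omega) b hbo hbn hb0 with h | ⟨_, h⟩
  · have h1 := congrFun h (m • x)
    simp only [hb, inv_smul_smul, Pi.zero_apply] at h1
    linarith
  · by_cases hb1 : ∃ x1, b x1 ≠ 0
    · exfalso
      obtain ⟨x1, hx1⟩ := hb1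
      let Nb : Subgroup G :=
        { carrier := {g | ∀ y, b (g • y) = b y}
          mul_mem' := by
            intro g h hg hh y
            rw [mul_smul, hg, hh]
          one_mem' := by
            intro y
            rw [one_smul]
          inv_mem' := by
            intro g hg y
            have := hg (g⁻¹ • y)
            rw [smul_inv_smul] at this
            exact this.symm }
      have hI : Comb.Imag c Nb := by
        constructor
        · intro hc
          have h1 := hc x1
          rw [hbo] at h1
          omega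
        · intro τ hτ y
          rcases h τ with h1 | h1
          · exact absurd h1 hτ
          · rw [mul_smul, hbo, h1, neg_neg]
      have hmb : ∀ y, b (m⁻¹ • y) = b y := Nb.inv_mem (hm Nb hI)
      have hk : ∀ (k : ℕ) (y : X), a ((m⁻¹) ^ k • y) = a y + k * b y := by
        intro k
        induction k with
        | zero => intro y; simp
        | succ k ih =>
          intro y
          rw [pow_succ, mul_smul, ih]
          have h1 : a (m⁻¹ • y) = a y + b y := by simp only [hb]; ring
          rw [h1, hmb]
          push_cast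
          ring
      have h2 := hk (Fintype.card G) x1
      rw [pow_card_eq_one, one_smul] at h2
      have h3 : (Fintype.card G : ℤ) * b x1 = 0 := by linarith
      rcases mul_eq_zero.1 h3 with h4 | h4
      · have := Fintype.card_pos (α := G)
        have h5 : Fintype.card G = 0 := by exact_mod_cast h4
        omega
      · exact hx1 h4
    · push Not at hb1
      have h1 := hb1 (m • x)
      simp only [hb, inv_smul_smul] at h1
      linarith

/-- the case in which `M` and `c` act transitively -/
theorem semi_of_trans (hS : Setting G X c) (a : X → ℤ) (ha : ∀ x, a (c • x) = -a x)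
    (hM : ∀ m, InM c m → ∀ x, a (m • x) = a x) (x0 : X)
    (htr : ∀ y, ∃ m, InM c m ∧ (y = m • x0 ∨ y = c • m • x0)) : Semi G a := by
  intro g
  have hgm : ∀ m, InM c m → ∀ x, a (g • m • x) = a (g • x) := by
    intro m hm x
    have h1 : g • m • x = (g * m * g⁻¹) • g • x := by
      rw [smul_smul, smul_smul]
      congr 1
      group
    rw [h1, hM _ (hm.conj hS.comm g)]
  obtain ⟨m, hm, h1 | h1⟩ := htr (g • x0)
  · left
    intro y
    obtain ⟨m', hm', h2 | h2⟩ := htr y
    · rw [h2, hgm _ hm', hM _ hm', h1, hM _ hm]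
    · rw [h2, cc hS.comm, ha, ha, hgm _ hm', hM _ hm', h1, hM _ hm]
  · right
    intro y
    obtain ⟨m', hm', h2 | h2⟩ := htr y
    · rw [h2, hgm _ hm', hM _ hm', h1, ha, hM _ hm]
    · rw [h2, cc hS.comm, ha, ha, hgm _ hm', hM _ hm', h1, ha, hM _ hm]

/-- if `M` and `c` do not act transitively then `M` preserves the pairs `x`, `c x` -/
theorem pairs (hS : Setting G X c) (hcard : Fintype.card X ≤ 6) (x0 y : X)
    (hy : ∀ m, InM c m → ¬ (y = m • x0 ∨ y = c • m • x0)) :
    ∀ m, InM c m → ∀ x : X, m • x = x ∨ m • x = c • x := by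
  classical
  have hcne : ∀ x : X, c • x ≠ x := hS.ne
  have hccx : ∀ x : X, c • c • x = x := fun x => by rw [smul_smul, hS.sq, one_smul]
  have h0 : ∀ m, InM c m → m • x0 = x0 ∨ m • x0 = c • x0 := by
    intro m hm
    by_contra hcon
    rw [not_or] at hcon
    obtain ⟨hc1, hc2⟩ := hcon
    obtain ⟨d, hd⟩ := hS.trans x0 y
    set A : Finset X := {x0, c • x0, m • x0, c • m • x0} with hA
    have hAc : A.card = 4 := by
      have e1 : c • x0 ≠ m • x0 := fun h => hc2 h.symm
      have e2 : x0 ≠ c • m • x0 := by
        intro h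
        apply hc2
        have := congrArg (fun z => c • z) h
        simp only [hccx] at this
        exact this.symm
      have e3 : c • x0 ≠ c • m • x0 := by
        intro h
        exact hc1 (smul_left_cancel c h).symm
      rw [hA, Finset.card_insert_of_notMem, Finset.card_insert_of_notMem,
        Finset.card_insert_of_notMem, Finset.card_singleton]
      · rw [Finset.mem_singleton]
        exact fun h => hcne _ h.symm
      · rw [Finset.mem_insert, Finset.mem_singleton, not_or]
        exact ⟨e1, e3⟩
      · rw [Finset.mem_insert, Finset.mem_insert, Finset.mem_singleton, not_or, not_or]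
        exact ⟨fun h => hcne _ h.symm, fun h => hc1 h.symm, e2⟩
    have hA' : (A.image fun z => d • z).card = 4 := by
      rw [Finset.card_image_of_injective _ (MulAction.injective d), hAc]
    have hform : ∀ z ∈ A, ∃ s, InM c s ∧ (z = s • x0 ∨ z = c • s • x0) := by
      intro z hz
      simp only [hA, Finset.mem_insert, Finset.mem_singleton] at hz
      rcases hz with rfl | rfl | rfl | rfl
      · exact ⟨1, InM.one, Or.inl (one_smul _ _).symm⟩
      · exact ⟨1, InM.one, Or.inr (by rw [one_smul])⟩
      · exact ⟨m, hm, Or.inl rfl⟩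
      · exact ⟨m, hm, Or.inr rfl⟩
    have hdisj : Disjoint A (A.image fun z => d • z) := by
      rw [Finset.disjoint_left]
      intro z hz hz'
      obtain ⟨z', hz1, hz2⟩ := Finset.mem_image.1 hz'
      obtain ⟨s, hs, h1⟩ := hform z hz
      obtain ⟨s', hs', h2⟩ := hform z' hz1
      -- y = d x0 = (d s'⁻¹ d⁻¹) z up to c
      have hconj : ∀ w : X, (d * s'⁻¹ * d⁻¹) • d • w = d • s'⁻¹ • w := by
        intro w
        rw [smul_smul, smul_smul]
        congr 1
        group
      have key : InM c ((d * s'⁻¹ * d⁻¹) * s) := (hs'.inv.conj hS.comm d).mul hs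
      rcases h1 with h1 | h1 <;> rcases h2 with h2 | h2
      · refine hy _ key (Or.inl ?_)
        rw [mul_smul, ← h1, ← hz2, h2, hconj, inv_smul_smul, hd]
      · refine hy _ key (Or.inr ?_)
        rw [mul_smul, ← h1, ← hz2, h2, cc hS.comm, cc hS.comm, hconj, inv_smul_smul, hd, hccx]
      · refine hy _ key (Or.inr ?_)
        have h3 : s • x0 = c • z := by rw [h1, hccx]
        rw [mul_smul, h3, cc hS.comm, hccx, ← hz2, h2, hconj, inv_smul_smul, hd]
      · refine hy _ key (Or.inl ?_)
        have h3 : s • x0 = c • z := by rw [h1, hccx]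
        rw [mul_smul, h3, cc hS.comm (d * s'⁻¹ * d⁻¹) z, ← hz2, h2, cc hS.comm d (s' • x0),
          cc hS.comm (d * s'⁻¹ * d⁻¹) (d • s' • x0), hccx, hconj, inv_smul_smul, hd]
    have h8 : (A ∪ A.image fun z => d • z).card = 8 := by
      rw [Finset.card_union_of_disjoint hdisj, hAc, hA']
    have h9 := Finset.card_le_univ (A ∪ A.image fun z => d • z)
    omega
  intro m hm x
  obtain ⟨g, rfl⟩ := hS.trans x0 x
  have h1 : m • g • x0 = g • (g⁻¹ * m * g) • x0 := by
    rw [smul_smul, smul_smul]
    congr 1
    group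
  have h2 : InM c (g⁻¹ * m * g) := by
    have := hm.conj hS.comm g⁻¹
    rwa [inv_inv] at this
  rw [h1]
  rcases h0 _ h2 with h3 | h3
  · left; rw [h3]
  · right; rw [h3, cc hS.comm]

/-- `u` and `v` belong to the same pair -/
def Pr (c : G) (u v : X) : Prop := v = u ∨ v = c • u

theorem ccx (hS : Setting G X c) (x : X) : c • c • x = x := by rw [smul_smul, hS.sq, one_smul]

theorem Pr.symm' (hS : Setting G X c) {u v : X} (h : Pr c u v) : Pr c v u := by
  rcases h with h | h
  · exact Or.inl h.symm
  · exact Or.inr (by rw [h, ccx hS])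

theorem Pr.trans' (hS : Setting G X c) {u v w : X} (h : Pr c u v) (h' : Pr c v w) : Pr c u w := by
  rcases h with rfl | rfl <;> rcases h' with rfl | rfl
  · exact Or.inl rfl
  · exact Or.inr rfl
  · exact Or.inr rfl
  · exact Or.inl (by rw [ccx hS])

theorem Pr.smul' (hS : Setting G X c) {u v : X} (h : Pr c u v) (g : G) : Pr c (g • u) (g • v) := by
  rcases h with rfl | rfl
  · exact Or.inl rfl
  · exact Or.inr (cc hS.comm g u)

theorem Pr.of_smul' (hS : Setting G X c) {u v : X} (g : G) (h : Pr c (g • u) (g • v)) :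
    Pr c u v := by
  have := h.smul' hS g⁻¹
  rwa [inv_smul_smul, inv_smul_smul] at this

theorem npr (hS : Setting G X c) {u v : X} (h : ¬ Pr c u v) :
    u ≠ v ∧ u ≠ c • v ∧ c • u ≠ v ∧ c • u ≠ c • v := by
  have h' : ¬ Pr c v u := fun h1 => h (h1.symm' hS)
  unfold Pr at h h'
  rw [not_or] at h h'
  exact ⟨h'.1, h'.2, fun h1 => h.2 h1.symm, fun h1 => h'.1 (smul_left_cancel c h1)⟩

/-- two pairs -/
theorem two_pairs (hS : Setting G X c) (hcard : Fintype.card X ≤ 6)
    (hp : ∀ m, InM c m → ∀ x : X, Pr c x (m • x)) (x y : X)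
    (hxy : ¬ Pr c x y) (z : X) : Pr c x z ∨ Pr c y z := by
  by_contra hcon
  rw [not_or] at hcon
  obtain ⟨hxz, hyz⟩ := hcon
  have hall : ∀ w, Pr c x w ∨ Pr c y w ∨ Pr c z w := by
    intro w
    by_contra hw
    simp only [not_or] at hw
    obtain ⟨hw1, hw2, hw3⟩ := hw
    obtain ⟨a1, a2, a3, a4⟩ := npr hS hxy
    obtain ⟨b1, b2, b3, b4⟩ := npr hS hxz
    obtain ⟨c1, c2, c3, c4⟩ := npr hS hyz
    obtain ⟨d1, _, d3, _⟩ := npr hS hw1
    obtain ⟨e1, _, e3, _⟩ := npr hS hw2
    obtain ⟨f1, _, f3, _⟩ := npr hS hw3
    have hne := fun u : X => (hS.ne u).symm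
    have hnd : [x, c • x, y, c • y, z, c • z, w].Nodup := by
      simp only [List.nodup_cons, List.mem_cons, List.not_mem_nil, or_false, not_or,
        not_false_eq_true, List.nodup_nil, and_true]
      exact ⟨⟨hne x, a1, a2, b1, b2, d1⟩, ⟨a3, a4, b3, b4, d3⟩, ⟨hne y, c1, c2, e1⟩,
        ⟨c3, c4, e3⟩, ⟨hne z, f1⟩, f3⟩
    have := hnd.length_le_card
    simp only [List.length_cons, List.length_nil] at this
    omega
  have hsq : ∀ (g : G) (w : X), Pr c w (g • g • w) := by
    intro g w
    rw [smul_smul]
    exact hp _ (InM.sq hS.comm g) w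
  obtain ⟨g, hg⟩ := hS.trans x y
  obtain ⟨h, hh⟩ := hS.trans x z
  have hgz : Pr c z (g • z) := by
    rcases hall (g • z) with h1 | h1 | h1
    · exfalso
      have h2 := h1.smul' hS g
      rw [hg] at h2
      exact hyz (h2.trans' hS ((hsq g z).symm' hS))
    · exfalso
      rw [← hg] at h1
      exact hxz (h1.of_smul' hS g)
    · exact h1
  have hhz : Pr c x (h • z) := by
    have := hsq h x
    rwa [hh] at this
  have h1 : Pr c x (h • g • z) := hhz.trans' hS (hgz.smul' hS h)
  have h2 : Pr c y (g • h • g • z) := by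
    have := h1.smul' hS g
    rwa [hg] at this
  have h3 : Pr c x (g • h • g • z) := by
    have := hsq (g * h) x
    rwa [mul_smul, mul_smul, hh] at this
  exact hxy (h3.trans' hS (h2.symm' hS))

theorem single : S_single := by
  intro hst G X _ _ _ _ c hS D ε hε hcard a ha hnf hQ
  have hM : ∀ m, InM c m → ∀ x, a (m • x) = a x := fun m hm x =>
    step1 hst hS D ε hε hcard a ha hnf hQ hm x
  by_cases hX : Nonempty X
  swap
  · intro g
    left
    intro x
    exact absurd ⟨x⟩ hX
  obtain ⟨x0⟩ := hX
  by_cases htr : ∀ y, ∃ m, InM c m ∧ (y = m • x0 ∨ y = c • m • x0)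
  · exact semi_of_trans hS a ha hM x0 htr
  push Not at htr
  obtain ⟨y, hy⟩ := htr
  have hp : ∀ m, InM c m → ∀ x : X, Pr c x (m • x) := by
    intro m hm x
    exact pairs hS hcard x0 y (fun m hm h => by
      have := hy m hm
      tauto) m hm x
  have hxy : ¬ Pr c x0 y := by
    intro h
    have := hy 1 InM.one
    rw [one_smul] at this
    unfold Pr at h
    tauto
  have hall := two_pairs hS hcard hp x0 y hxy
  by_cases hfix : ∃ m, InM c m ∧ ∃ x : X, m • x = c • x
  · -- then `a = 0`
    obtain ⟨m, hm, x, hx⟩ := hfix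
    have hz : ∀ w, a w = 0 := by
      intro w
      obtain ⟨g, rfl⟩ := hS.trans x w
      have h1 : g • m • x = (g * m * g⁻¹) • g • x := by
        rw [smul_smul, smul_smul]
        congr 1
        group
      have h2 : a (g • m • x) = a (g • x) := by rw [h1, hM _ (hm.conj hS.comm g)]
      rw [hx, cc hS.comm, ha] at h2
      omega
    intro g
    left
    intro w
    rw [hz, hz]
  · -- `M` acts trivially
    push Not at hfix
    have htriv : ∀ m, InM c m → ∀ x : X, m • x = x := by
      intro m hm x
      rcases hp m hm x with h | h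
      · exact h
      · exact absurd h (hfix m hm x)
    have hsq : ∀ (g : G) (w : X), g • g • w = w := by
      intro g w
      rw [smul_smul]
      exact htriv _ (InM.sq hS.comm g) w
    have hcomm : ∀ (g h : G) (w : X), g • h • w = h • g • w := by
      intro g h w
      have h1 : g • h • g • h • w = w := by
        have := hsq (g * h) w
        simpa only [mul_smul] using this
      have h2 : h • g • h • w = g • w := by
        have := congrArg (fun z => g • z) h1
        simp only [hsq] at this
        exact this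
      have h3 := congrArg (fun z => h • z) h2
      simp only [hsq] at h3
      exact h3
    obtain ⟨d, hd⟩ := hS.trans x0 y
    have hdy : d • y = x0 := by rw [← hd, hsq]
    -- a general sign lemma
    have hsign : ∀ (f : X → ℤ) (u : ℤ), (∀ x, f (c • x) = -f x) → u * u = 1 → f y = u * f x0 →
        ∀ w, f (d • w) = u * f w := by
      intro f u hf hu h1 w
      have h2 : f x0 = u * f y := by rw [h1, ← mul_assoc, hu, one_mul]
      rcases hall w with (rfl | rfl) | (rfl | rfl)
      · rw [hd, h1]
      · rw [cc hS.comm, hd, hf, hf, h1]; ring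
      · rw [hdy]; exact h2
      · rw [cc hS.comm, hdy, hf, hf, h2]; ring
    set u : ℤ := ε y * ε x0 with hu
    have hε2 : ∀ x, ε x * ε x = 1 := by
      intro x
      rcases hε.sign x with h | h <;> rw [h] <;> norm_num
    have huu : u * u = 1 := by
      have h1 := hε2 y
      have h2 := hε2 x0
      calc u * u = (ε y * ε y) * (ε x0 * ε x0) := by rw [hu]; ring
        _ = 1 := by rw [h1, h2]; norm_num
    have hεd : ∀ w, ε (d • w) = u * ε w := by
      refine hsign ε u hε.odd huu ?_
      rw [hu, mul_assoc, hε2, mul_one]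
    have hnfd : ∀ g, nf D ε y g = u * nf D ε x0 g := by
      intro g
      unfold nf
      rw [Finset.mul_sum]
      refine Finset.sum_congr rfl fun δ _ => ?_
      split_ifs with hδ
      · rw [← hd, hcomm g d, hcomm δ d, hεd]
      · simp
    have hu1 : u = 1 ∨ u = -1 := by
      have : (u - 1) * (u + 1) = 0 := by linarith
      rcases mul_eq_zero.1 this with h | h
      · left; linarith
      · right; linarith
    have hay : a y = u * a x0 := by
      rcases hu1 with h | h
      · rw [h, one_mul]
        refine hnf _ _ (funext fun g => ?_)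
        rw [hnfd, h, one_mul]
      · have h1 : a y = a (c • x0) := by
          refine hnf _ _ (funext fun g => ?_)
          rw [hnfd, h, nf_c D hS.comm hε]
          ring
        rw [h1, ha, h]
        ring
    have had : ∀ w, a (d • w) = u * a w := hsign a u ha huu hay
    -- every element acts as `1`, `c`, `d` or `c d`
    have hact : ∀ (g t : G), g • x0 = t • x0 → ∀ w : X, g • w = t • w := by
      intro g t hgt w
      obtain ⟨s, rfl⟩ := hS.trans x0 w
      rw [hcomm g s, hgt, hcomm s t]
    intro g
    rcases hall (g • x0) with (h1 | h1) | (h1 | h1)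
    · left
      intro w
      have := hact g 1 (by rw [h1, one_smul]) w
      rw [this, one_smul]
    · right
      intro w
      rw [hact g c h1 w, ha]
    · have h2 := hact g d (by rw [h1, hd])
      rcases hu1 with h | h
      · left
        intro w
        rw [h2, had, h, one_mul]
      · right
        intro w
        rw [h2, had, h]
        ring
    · have h2 := hact g (c * d) (by rw [h1, mul_smul, hd])
      rcases hu1 with h | h
      · right
        intro w
        rw [h2, mul_smul, ha, had, h, one_mul]
      · left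
        intro w
        rw [h2, mul_smul, ha, had, h]
        ring

end Pool.Agent.W975.TC
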